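import Pool.Agent.Lib.MP_182bbb_co.AR.H5.Sdr

/-! # MP_182bbb_co, board ar : DEG -/

open Finset MP_182bbb_co.H5

namespace MP_182bbb_co.AR

universe u v

variable {V : Type v} [Fintype V] [DecidableEq V]

lemma mem_shadow' {F : Finset (Finset V)} {s : Finset V} :
    s ∈ H5.shadow F ↔ ∃ e ∈ F, ∃ x ∈ e, e.erase x = s := by
  simp [H5.shadow]

lemma insert_mem_shadow {G : Finset (Finset V)} {f : Finset V} {c : V} (hc : c ∉ f)
    (h : insert c f ∈ G) : f ∈ H5.shadow G :=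
  mem_shadow'.2 ⟨insert c f, h, c, mem_insert_self _ _, erase_insert hc⟩

theorem deg : DEG_S.{v} := by
  intro V _ _ r K G F hG hK
  rw [Finset.sum_sigma', Finset.sum_sigma']
  refine Finset.sum_bij' (fun p _ => ⟨insert p.2 p.1, p.2⟩) (fun p _ => ⟨p.1.erase p.2, p.2⟩)
    ?_ ?_ ?_ ?_ ?_
  · rintro ⟨f, c⟩ h
    rw [mem_sigma, mem_lk] at h
    rw [mem_sigma]
    exact ⟨h.2.2, mem_insert_self _ _⟩
  · rintro ⟨e, c⟩ h
    rw [mem_sigma] at h
    rw [mem_sigma, mem_lk]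
    refine ⟨mem_shadow'.2 ⟨e, hK h.1, c, h.2, rfl⟩, notMem_erase _ _, ?_⟩
    simp only
    rw [insert_erase h.2]
    exact h.1
  · rintro ⟨f, c⟩ h
    rw [mem_sigma, mem_lk] at h
    simp only
    rw [erase_insert h.2.1]
  · rintro ⟨e, c⟩ h
    rw [mem_sigma] at h
    simp only
    rw [insert_erase h.2]
  · rintro ⟨f, c⟩ h
    rw [mem_sigma, mem_lk] at h
    simp only
    rw [erase_insert h.2.1]

end MP_182bbb_co.AR
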