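import Pool.Agent.Lib.MP_182bbb_co.AR.H5.Upper

/-! # MP_182bbb_co, board ar : the end -/

open Finset MP_182bbb_co.H5 Filter Topology

namespace MP_182bbb_co.AR

universe u v

/-- A book is a strict tree. -/
lemma IsBook.isStrictTree {α : Type u} [DecidableEq α] {r : ℕ} {H : Finset (Finset α)}
    (hH : IsBook r H) : IsStrictTree r H := by
  classical
  obtain ⟨hne, hu, q, hq, hsub⟩ := hH
  obtain ⟨k, hk⟩ : ∃ k, H.card = k + 1 := ⟨H.card - 1, by have := card_pos.2 hne; omega⟩
  let E : Fin (k + 1) ≃ {x // x ∈ H} := (Finset.equivFinOfCardEq hk).symm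
  have hinj : Function.Injective (fun i => (E i : Finset α)) := by
    intro i j hij
    exact E.injective (Subtype.ext hij)
  have hmem : ∀ i, (E i : Finset α) ∈ H := fun i => (E i).2
  have key : ∀ i j, i ≠ j → (E i : Finset α) ∩ (E j : Finset α) = q := by
    intro i j hij
    apply Subset.antisymm
    · intro x hx
      by_contra hxq
      rw [mem_inter] at hx
      have h1 : ∀ l, x ∈ (E l : Finset α) → (E l : Finset α) = insert x q := by
        intro l hl
        symm
        apply eq_of_subset_of_card_le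
        · exact insert_subset hl (hsub _ (hmem l))
        · rw [card_insert_of_notMem hxq, hu _ (hmem l)]
          omega
      exact hij (hinj ((h1 i hx.1).trans (h1 j hx.2).symm))
    · exact subset_inter (hsub _ (hmem i)) (hsub _ (hmem j))
  refine ⟨k, fun i => (E i : Finset α), hinj, ?_, fun i => hu _ (hmem i), ?_⟩
  · ext s
    simp only [mem_image, mem_univ, true_and]
    constructor
    · rintro ⟨i, rfl⟩
      exact hmem i
    · intro hs
      exact ⟨E.symm ⟨s, hs⟩, by simp⟩
  · intro i hi
    have h0 : (⟨0, by omega⟩ : Fin (k + 1)) < i := by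
      rw [Fin.lt_def]; exact hi
    have heq : (E i : Finset α) ∩ (Finset.Iio i).biUnion (fun i => (E i : Finset α)) = q := by
      apply Subset.antisymm
      · intro x hx
        rw [mem_inter, mem_biUnion] at hx
        obtain ⟨hxi, j, hj, hxj⟩ := hx
        have hne : i ≠ j := (ne_of_gt (Finset.mem_Iio.1 hj))
        rw [← key i j hne, mem_inter]
        exact ⟨hxi, hxj⟩
      · intro x hx
        rw [mem_inter, mem_biUnion]
        exact ⟨hsub _ (hmem i) hx, _, Finset.mem_Iio.2 h0, hsub _ (hmem _) hx⟩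
    rw [heq]
    exact ⟨hq, _, h0, hsub _ (hmem _)⟩

lemma card_shadow_le {n r : ℕ} {G : Finset (Finset (Fin n))} (hG : IsUniform r G) :
    (H5.shadow G).card ≤ n.choose (r - 1) := by
  have h1 : H5.shadow G ⊆ (univ : Finset (Fin n)).powersetCard (r - 1) := by
    intro f hf
    rw [mem_powersetCard]
    refine ⟨subset_univ _, ?_⟩
    have := card_of_mem_shadow hG hf
    omega
  have := card_le_card h1
  rwa [card_powersetCard, card_univ, Fintype.card_fin] at this

lemma low_aux (hL : LOWER_S.{u, 0}) (hC : STARCARD_S.{0})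
    {α : Type u} [DecidableEq α] {r : ℕ} (hr : 2 ≤ r) {H : Finset (Finset α)}
    (hH : IsStrictTree r H) (n : ℕ) :
    H.card * (n - H.card).choose (r - 1) ≤ ex r n (expansion 1 (H5.shadow H)) := by
  have hr1 : 1 ≤ r := by omega
  rcases Nat.lt_or_ge n H.card with hn | hn
  · have : n - H.card = 0 := by omega
    rw [this, Nat.choose_eq_zero_of_lt (by omega)]
    simp
  · obtain ⟨L, _, hLc⟩ := Finset.exists_subset_card_eq (s := (univ : Finset (Fin n)))
      (n := H.card) (by rw [card_univ, Fintype.card_fin]; exact hn)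
    have h1 := hC (Fin n) r L hr1
    rw [Fintype.card_fin, hLc] at h1
    rw [← h1]
    refine le_ex _ ?_ (hL α (Fin n) r H L hr hH hLc.le)
    intro e he
    have := (mem_filter.1 he).1
    exact (mem_powersetCard.1 this).2

/-- Strict trees, every uniformity. -/
theorem strict_aux (hS : STRICT_S.{u}) (hU : UPPER_S.{u, v}) (hU0 : UPPER_S.{u, 0})
    (hL : LOWER_S.{u, 0}) (hC : STARCARD_S.{0})
    {α : Type u} [DecidableEq α] (r : ℕ) (hr : 2 ≤ r) (H : Finset (Finset α))
    (hH : IsStrictTree r H) :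
    IsTightTree H ∧
    (∀ (V : Type v) [Fintype V] [DecidableEq V] (G : Finset (Finset V)), IsUniform r G →
      ¬ ContainsCopy (expansion 1 (H5.shadow H)) G →
      G.card ≤ (2 * H.card - 1) * (H5.shadow G).card) ∧
    (∀ n : ℕ, H.card * (n - H.card).choose (r - 1) ≤ ex r n (expansion 1 (H5.shadow H)) ∧
      ex r n (expansion 1 (H5.shadow H)) ≤ (2 * H.card - 1) * n.choose (r - 1)) := by
  obtain ⟨hne, hu, htt, hv⟩ := hS α r H hH
  have hr1 : 1 ≤ r := by omega
  refine ⟨htt, ?_, ?_⟩
  · intro V _ _ G hG hfree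
    exact hU α V r H G hr1 hH hG hfree
  · intro n
    refine ⟨low_aux hL hC hr hH n, ex_le ?_⟩
    intro G hG hfree
    exact (hU0 α (Fin n) r H G hr1 hH hG hfree).trans
      (Nat.mul_le_mul_left _ (card_shadow_le hG))

/-- Books, every uniformity. -/
theorem book_aux (hS : STRICT_S.{u}) (hB : BOOKUP_S.{u, v}) (hB0 : BOOKUP_S.{u, 0})
    (hL : LOWER_S.{u, 0}) (hC : STARCARD_S.{0}) (hLim : LIM_S)
    {α : Type u} [DecidableEq α] (r : ℕ) (hr : 2 ≤ r) (H : Finset (Finset α))
    (hH : IsBook r H) :
    IsTightTree H ∧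
    (∀ (V : Type v) [Fintype V] [DecidableEq V] (G : Finset (Finset V)), IsUniform r G →
      ¬ ContainsCopy (expansion 1 (H5.shadow H)) G → G.card ≤ H.card * (H5.shadow G).card) ∧
    Tendsto (fun n : ℕ => (ex r n (expansion 1 (H5.shadow H)) : ℝ) /
      (n.choose (r - 1) : ℝ)) atTop (𝓝 (H.card : ℝ)) := by
  obtain ⟨hne, hu, htt, hv⟩ := hS α r H hH.isStrictTree
  have hr1 : 1 ≤ r := by omega
  refine ⟨htt, ?_, ?_⟩
  · intro V _ _ G hG hfree
    exact hB α V r H G hr1 hH hG hfree
  · have hup : ∀ n : ℕ, ex r n (expansion 1 (H5.shadow H)) ≤ H.card * n.choose (r - 1) := by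
      intro n
      refine ex_le ?_
      intro G hG hfree
      exact (hB0 α (Fin n) r H G hr1 hH hG hfree).trans
        (Nat.mul_le_mul_left _ (card_shadow_le hG))
    refine tendsto_of_tendsto_of_tendsto_of_le_of_le' (hLim r H.card hr)
      (tendsto_const_nhds (x := (H.card : ℝ))) ?_ ?_
    · filter_upwards with n
      refine div_le_div_of_nonneg_right ?_ (Nat.cast_nonneg _)
      exact_mod_cast low_aux hL hC hr hH.isStrictTree n
    · filter_upwards with n
      refine div_le_of_le_mul₀ (Nat.cast_nonneg _) (Nat.cast_nonneg _) ?_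
      exact_mod_cast hup n

end MP_182bbb_co.AR
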