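import Pool.Agent.Lib.MP_182bbb_co.AR.Iface

/-! # MP_182bbb_co, board ar : SDR, HALL -/

open Finset MP_182bbb_co.H5

namespace MP_182bbb_co.AR

universe u v

/-- Hall with reciprocals. -/
theorem sdr_aux {ι : Type u} {V : Type v} [DecidableEq ι] [DecidableEq V] (T : Finset ι)
    (A : ι → Finset V) (hT : T.Nonempty) (h : ∑ p ∈ T, (1 : ℝ) / ((A p).card + 1) < 1) :
    ∃ h : ι → V, Set.InjOn h (T : Set ι) ∧ ∀ p ∈ T, h p ∈ A p := by
  classical
  have key : ∀ S : Finset ι, S ⊆ T → S.card ≤ (S.biUnion A).card := by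
    intro S hS
    rcases S.eq_empty_or_nonempty with rfl | hne
    · simp
    obtain ⟨p, hp, hmax⟩ := S.exists_max_image (fun p => (A p).card) hne
    have h1 : (S.card : ℝ) * (1 / ((A p).card + 1)) ≤ ∑ q ∈ S, (1 : ℝ) / ((A q).card + 1) := by
      rw [← nsmul_eq_mul]
      refine Finset.card_nsmul_le_sum _ _ _ ?_
      intro q hq
      refine one_div_le_one_div_of_le (by positivity) ?_
      have := hmax q hq
      have h2 : ((A q).card : ℝ) ≤ (A p).card := by exact_mod_cast this
      linarith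
    have h2 : ∑ q ∈ S, (1 : ℝ) / ((A q).card + 1) ≤ ∑ q ∈ T, (1 : ℝ) / ((A q).card + 1) :=
      Finset.sum_le_sum_of_subset_of_nonneg hS (fun _ _ _ => by positivity)
    have h3 : (S.card : ℝ) * (1 / ((A p).card + 1)) < 1 := by linarith
    rw [mul_one_div, div_lt_one (by positivity)] at h3
    have h4 : S.card < (A p).card + 1 := by exact_mod_cast h3
    have h5 : (A p).card ≤ (S.biUnion A).card :=
      Finset.card_le_card (Finset.subset_biUnion_of_mem A hp)
    omega
  have hall : ∀ s : Finset {x // x ∈ T}, s.card ≤ (s.biUnion (fun x => A x.1)).card := by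
    intro s
    have := key (s.image Subtype.val) (by
      intro x hx
      obtain ⟨y, _, rfl⟩ := Finset.mem_image.1 hx
      exact y.2)
    rw [Finset.card_image_of_injective _ Subtype.val_injective, Finset.image_biUnion] at this
    exact this
  obtain ⟨f, hf, hfA⟩ :=
    (Finset.all_card_le_biUnion_card_iff_exists_injective (fun x : {x // x ∈ T} => A x.1)).1 hall
  obtain ⟨p0, hp0⟩ := hT
  refine ⟨fun p => if hp : p ∈ T then f ⟨p, hp⟩ else f ⟨p0, hp0⟩, ?_, ?_⟩
  · intro p hp q hq hpq
    rw [mem_coe] at hp hq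
    simp only [hp, hq, dif_pos] at hpq
    have := hf hpq
    exact congrArg Subtype.val this
  · intro p hp
    simp only [hp, dif_pos]
    exact hfA ⟨p, hp⟩

theorem sdr : SDR_S.{u, v} := by
  intro ι V _ _ T A hT h
  exact sdr_aux T A hT h

lemma verts_shadow_subset {α : Type u} [DecidableEq α] (H : Finset (Finset α)) :
    verts (H5.shadow H) ⊆ verts H := by
  intro x hx
  obtain ⟨s, hs, hxs⟩ := mem_verts.1 hx
  simp only [H5.shadow, mem_biUnion, mem_image] at hs
  obtain ⟨e, he, y, _, rfl⟩ := hs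
  exact mem_verts.2 ⟨e, he, (mem_erase.1 hxs).2⟩

lemma mem_lk {V : Type v} [Fintype V] [DecidableEq V] {G : Finset (Finset V)} {f : Finset V}
    {c : V} : c ∈ lk G f ↔ c ∉ f ∧ insert c f ∈ G := by
  simp [lk]

/-- Placement plus `sdr` gives a copy of `T^+`. -/
theorem hall : HALL_S.{u, v} := by
  intro α V _ _ _ H G g hg hne hsum
  obtain ⟨h, hh, hA⟩ := sdr_aux (H5.shadow H)
    (fun p => lk G (p.image g) \ (verts H).image g) hne hsum
  refine containsCopy_of g h (hg.mono ?_) hh ?_ ?_
  · exact_mod_cast verts_shadow_subset H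
  · intro x hx s hs hxs
    have := hA s hs
    rw [mem_sdiff] at this
    exact this.2 (mem_image.2 ⟨x, verts_shadow_subset H hx, hxs⟩)
  · intro s hs
    have := hA s hs
    rw [mem_sdiff, mem_lk] at this
    exact this.1.2

end MP_182bbb_co.AR
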