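import Pool.Agent.Lib.MP_182bbb_co.AR.H5.Deg

/-! # MP_182bbb_co, board ar : UPPER -/

open Finset MP_182bbb_co.H5

namespace MP_182bbb_co.AR

universe u v

section
variable {V : Type v} [Fintype V] [DecidableEq V]

lemma card_of_mem_shadow {r : ℕ} {G : Finset (Finset V)} (hG : IsUniform r G) {f : Finset V}
    (hf : f ∈ H5.shadow G) : f.card + 1 = r := by
  obtain ⟨e, he, x, hx, rfl⟩ := mem_shadow'.1 hf
  rw [card_erase_of_mem hx, hG e he]
  have : 0 < e.card := card_pos.2 ⟨x, hx⟩
  rw [hG e he] at this
  omega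

lemma dg_pos {G : Finset (Finset V)} {f : Finset V} (hf : f ∈ H5.shadow G) : 0 < dg G f := by
  obtain ⟨e, he, x, hx, rfl⟩ := mem_shadow'.1 hf
  refine card_pos.2 ⟨x, mem_lk.2 ⟨notMem_erase _ _, ?_⟩⟩
  rw [insert_erase hx]
  exact he

lemma card_filter_superset {r : ℕ} {G : Finset (Finset V)} (hG : IsUniform r G) {f : Finset V}
    (hf : f.card + 1 = r) : (G.filter (fun e => f ⊆ e)).card = dg G f := by
  have h1 : G.filter (fun e => f ⊆ e) = (lk G f).image (fun c => insert c f) := by
    ext e
    simp only [mem_filter, mem_image, mem_lk]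
    constructor
    · rintro ⟨he, hfe⟩
      have hc : (e \ f).card = 1 := by
        rw [card_sdiff_of_subset hfe, hG e he]
        omega
      obtain ⟨c, hc⟩ := card_eq_one.1 hc
      have hce : insert c f = e := by
        rw [insert_eq, ← hc, sdiff_union_of_subset hfe]
      have hcf : c ∉ f := by
        have : c ∈ e \ f := by rw [hc]; exact mem_singleton_self c
        exact (mem_sdiff.1 this).2
      exact ⟨c, ⟨hcf, hce ▸ he⟩, hce⟩
    · rintro ⟨c, ⟨_, hc⟩, rfl⟩
      exact ⟨hc, subset_insert _ _⟩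
  rw [h1, card_image_of_injOn]
  · rfl
  · intro c hc d hd hcd
    rw [mem_coe, mem_lk] at hc hd
    simp only at hcd
    have : c ∈ insert d f := hcd ▸ mem_insert_self c f
    rcases mem_insert.1 this with h | h
    · exact h
    · exact absurd h hc.1

lemma lk_mono {K G : Finset (Finset V)} (h : K ⊆ G) (f : Finset V) : lk K f ⊆ lk G f := by
  intro c hc
  rw [mem_lk] at hc ⊢
  exact ⟨hc.1, h hc.2⟩

lemma shadow_mono {K G : Finset (Finset V)} (h : K ⊆ G) : H5.shadow K ⊆ H5.shadow G := by
  intro s hs
  obtain ⟨e, he, x, hx, rfl⟩ := mem_shadow'.1 hs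
  exact mem_shadow'.2 ⟨e, h he, x, hx, rfl⟩

lemma containsCopy_mono {β : Type u} [DecidableEq β] {F : Finset (Finset β)}
    {K G : Finset (Finset V)} (h : K ⊆ G) (hc : ContainsCopy F K) : ContainsCopy F G := by
  obtain ⟨f, hf, hK⟩ := hc
  exact ⟨f, hf, fun e he => h (hK e he)⟩

lemma dg_add {G : Finset (Finset V)} (P : Finset V → Prop) [DecidablePred P] (f : Finset V) :
    dg (G.filter P) f + dg (G.filter (fun e => ¬ P e)) f = dg G f := by
  unfold dg
  rw [← card_union_of_disjoint]
  · congr 1
    ext c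
    simp only [mem_union, mem_lk, mem_filter]
    tauto
  · rw [Finset.disjoint_left]
    intro c hc hc'
    rw [mem_lk, mem_filter] at hc hc'
    exact hc'.2.2 hc.2.2

end

lemma sum_le_sum_of_subset_image {ι κ : Type*} [DecidableEq κ] (I : Finset ι) (φ : ι → κ)
    (T : Finset κ) (hT : T ⊆ I.image φ) (f : κ → ℝ) (hf : ∀ i ∈ I, 0 ≤ f (φ i)) :
    ∑ p ∈ T, f p ≤ ∑ i ∈ I, f (φ i) := by
  classical
  have h1 : ∑ p ∈ T, f p ≤ ∑ p ∈ I.image φ, f p := by
    refine sum_le_sum_of_subset_of_nonneg hT ?_
    intro p hp _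
    obtain ⟨i, hi, rfl⟩ := mem_image.1 hp
    exact hf i hi
  refine h1.trans ?_
  rw [← Finset.sum_fiberwise_of_maps_to (s := I) (t := I.image φ) (g := φ)
    (fun i hi => mem_image_of_mem _ hi)]
  refine sum_le_sum ?_
  intro p hp
  obtain ⟨i, hi, rfl⟩ := mem_image.1 hp
  have : f (φ i) ≤ ∑ j ∈ I.filter (fun j => φ j = φ i), f (φ j) := by
    refine single_le_sum (f := fun j => f (φ j)) (fun j hj => hf j (mem_filter.1 hj).1) ?_
    exact mem_filter.2 ⟨hi, rfl⟩
  exact this

/-- The real inequality per facet. -/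
lemma bracket {N g m L : ℕ} (hN : 1 ≤ N) (hL : 2 * N ≤ L) (h : g + m = L) :
    (N : ℝ) * ((m : ℝ) * (1 / ((L : ℝ) - N + 1))) + (min (N - 1) g : ℕ) ≤
      ((2 * N - 1 : ℕ) : ℝ) := by
  have hL' : (2 : ℝ) * N ≤ L := by exact_mod_cast hL
  have hN' : (1 : ℝ) ≤ N := by exact_mod_cast hN
  have hpos : (0 : ℝ) < (L : ℝ) - N + 1 := by linarith
  have hc : ((2 * N - 1 : ℕ) : ℝ) = 2 * N - 1 := by
    rw [Nat.cast_sub (by omega)]; push_cast; ring
  have hc2 : ((N - 1 : ℕ) : ℝ) = N - 1 := by
    rw [Nat.cast_sub hN]; push_cast; ring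
  have hg : (g : ℝ) + m = L := by exact_mod_cast h
  rw [hc]
  rcases le_or_gt (m : ℝ) ((L : ℝ) - N + 1) with h1 | h1
  · have h2 : (m : ℝ) * (1 / ((L : ℝ) - N + 1)) ≤ 1 := by
      rw [mul_one_div, div_le_one hpos]; exact h1
    have h3 : ((min (N - 1) g : ℕ) : ℝ) ≤ N - 1 := by
      rw [← hc2]; exact_mod_cast min_le_left _ _
    nlinarith
  · have h3 : ((min (N - 1) g : ℕ) : ℝ) ≤ g := by exact_mod_cast min_le_right _ _
    have h4 : (N : ℝ) * ((m : ℝ) * (1 / ((L : ℝ) - N + 1))) ≤ N + (m - ((L : ℝ) - N + 1)) := by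
      rw [mul_one_div, mul_div_assoc', div_le_iff₀ hpos]
      nlinarith
    linarith

theorem upper (hS : STRICT_S.{u}) (hE : EMBED_S.{u, v}) (hP : PEEL_S.{v}) : UPPER_S.{u, v} := by
  intro α V _ _ _ r H G hr hH
  obtain ⟨hHne, hHu, _, hHv⟩ := hS α r H hH
  have hN : 1 ≤ H.card := card_pos.2 hHne
  induction hk : G.card using Nat.strong_induction_on generalizing G with
  | _ k ih =>
  intro hG hfree
  subst hk
  by_cases hA : ∃ f ∈ H5.shadow G, dg G f ≤ 2 * H.card - 1
  · obtain ⟨f, hf, hfd⟩ := hA
    have hfc := card_of_mem_shadow hG hf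
    have hsub : G.filter (fun e => ¬ f ⊆ e) ⊆ G := filter_subset _ _
    have hcard := card_filter_superset hG hfc
    have hsum := Finset.card_filter_add_card_filter_not (s := G) (fun e => f ⊆ e)
    have hpos := dg_pos hf
    have h1 := ih (G.filter (fun e => ¬ f ⊆ e)).card (by omega) _ rfl
      (fun e he => hG e (hsub he)) (fun hc => hfree (containsCopy_mono hsub hc))
    have h2 : H5.shadow (G.filter (fun e => ¬ f ⊆ e)) ⊆ (H5.shadow G).erase f := by
      intro s hs
      rw [mem_erase]
      refine ⟨?_, shadow_mono hsub hs⟩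
      rintro rfl
      obtain ⟨e, he, x, hx, rfl⟩ := mem_shadow'.1 hs
      exact (mem_filter.1 he).2 (erase_subset _ _)
    have h3 := card_le_card h2
    rw [card_erase_of_mem hf] at h3
    have h4 : 0 < (H5.shadow G).card := card_pos.2 ⟨f, hf⟩
    have h5 : (2 * H.card - 1) * (H5.shadow (G.filter (fun e => ¬ f ⊆ e))).card ≤
        (2 * H.card - 1) * ((H5.shadow G).card - 1) := Nat.mul_le_mul_left _ h3
    have h6 : (2 * H.card - 1) * ((H5.shadow G).card - 1) + (2 * H.card - 1) =
        (2 * H.card - 1) * (H5.shadow G).card := by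
      obtain ⟨t, ht⟩ : ∃ t, (H5.shadow G).card = t + 1 := ⟨_, (Nat.succ_pred_eq_of_pos h4).symm⟩
      rw [ht, Nat.add_sub_cancel]; ring
    omega
  · push Not at hA
    have hA' : ∀ f ∈ H5.shadow G, 2 * H.card ≤ dg G f := by
      intro f hf
      have := hA f hf
      omega
    set N := H.card with hNdef
    set w : Finset V → ℝ := fun f => 1 / ((dg G f : ℝ) - N + 1) with hw
    have hNr : (1 : ℝ) ≤ N := by exact_mod_cast hN
    have hwpos : ∀ f ∈ H5.shadow G, 0 < (dg G f : ℝ) - N + 1 := by
      intro f hf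
      have : (2 : ℝ) * N ≤ dg G f := by exact_mod_cast hA' f hf
      linarith
    have hw0 : ∀ f ∈ H5.shadow G, 0 ≤ w f := fun f hf => by
      have := hwpos f hf
      positivity
    classical
    set P : Finset V → Prop := fun e => ∑ x ∈ e, w (e.erase x) < 1 / N with hPdef
    have hGood : G.filter P ⊆ G := filter_subset _ _
    have hBad : G.filter (fun e => ¬ P e) ⊆ G := filter_subset _ _
    -- (1)
    have h1 : (G.filter P).card ≤
        ∑ f ∈ H5.shadow (G.filter P), min (N - 1) (dg (G.filter P) f) := by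
      refine hP V r N (G.filter P) (fun e he => hG e (hGood he)) hr hN ?_
      intro K hK hKne
      by_contra hcon
      push Not at hcon
      obtain ⟨g, hg, hgK⟩ := hE α V r H K hr hH (fun e he => hG e (hGood (hK he))) hKne hcon
      apply hfree
      have hshne : (H5.shadow H).Nonempty := by
        obtain ⟨e, he⟩ := hHne
        have : 0 < e.card := by rw [hHu e he]; omega
        obtain ⟨x, hx⟩ := card_pos.1 this
        refine ⟨e.erase x, ?_⟩
        simp only [H5.shadow, mem_biUnion, mem_image]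
        exact ⟨e, he, x, hx, rfl⟩
      refine hall α V H G g hg hshne ?_
      have hinj : ∀ e ∈ H, Set.InjOn g (e : Set α) := by
        intro e he
        refine hg.mono ?_
        intro x hx
        exact mem_coe.2 (mem_verts.2 ⟨e, he, hx⟩)
      have himg : ∀ e ∈ H, ∀ x ∈ e, (e.erase x).image g = (e.image g).erase (g x) := by
        intro e he x hx
        ext y
        simp only [mem_image, mem_erase]
        constructor
        · rintro ⟨z, ⟨hzx, hze⟩, rfl⟩
          exact ⟨fun h => hzx (hinj e he (mem_coe.2 hze) (mem_coe.2 hx) h), z, hze, rfl⟩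
        · rintro ⟨hy, z, hz, rfl⟩
          exact ⟨z, ⟨fun h => hy (by rw [h]), hz⟩, rfl⟩
      have hmemG : ∀ e ∈ H, e.image g ∈ G := fun e he => hGood (hK (hgK e he))
      have hshG : ∀ e ∈ H, ∀ x ∈ e, (e.erase x).image g ∈ H5.shadow G := by
        intro e he x hx
        rw [himg e he x hx]
        exact mem_shadow'.2 ⟨e.image g, hmemG e he, g x, mem_image_of_mem _ hx, rfl⟩
      have hterm : ∀ p ∈ H5.shadow H,
          (1 : ℝ) / ((lk G (p.image g) \ (verts H).image g).card + 1) ≤ w (p.image g) := by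
        intro p hp
        simp only [H5.shadow, mem_biUnion, mem_image] at hp
        obtain ⟨e, he, x, hx, rfl⟩ := hp
        have hsG := hshG e he x hx
        refine one_div_le_one_div_of_le (hwpos _ hsG) ?_
        have hsubv : (e.erase x).image g ⊆ (verts H).image g :=
          image_subset_image (fun y hy => mem_verts.2 ⟨e, he, (mem_erase.1 hy).2⟩)
        have hc1 : ((verts H).image g).card = (verts H).card := card_image_of_injOn hg
        have hc2 := card_of_mem_shadow hG hsG
        have hc3 : (lk G ((e.erase x).image g) ∩ (verts H).image g).card ≤ N := by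
          have : lk G ((e.erase x).image g) ∩ (verts H).image g ⊆
              (verts H).image g \ (e.erase x).image g := by
            intro c hc
            rw [mem_inter, mem_lk] at hc
            exact mem_sdiff.2 ⟨hc.2, hc.1.1⟩
          have h := card_le_card this
          rw [card_sdiff_of_subset hsubv, hc1] at h
          omega
        have hc4 := card_sdiff_add_card_inter (lk G ((e.erase x).image g)) ((verts H).image g)
        have hc5 : dg G ((e.erase x).image g) ≤
            (lk G ((e.erase x).image g) \ (verts H).image g).card + N := by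
          unfold dg
          omega
        have hc6 : (dg G ((e.erase x).image g) : ℝ) ≤
            (lk G ((e.erase x).image g) \ (verts H).image g).card + N := by
          exact_mod_cast hc5
        linarith
      refine (sum_le_sum hterm).trans_lt ?_
      have hs1 : ∑ p ∈ H5.shadow H, w (p.image g) ≤
          ∑ i ∈ H.sigma (fun e => e), w ((i.1.erase i.2).image g) := by
        refine sum_le_sum_of_subset_image (H.sigma (fun e => e)) (fun i => i.1.erase i.2)
          (H5.shadow H) ?_ (fun p => w (p.image g)) ?_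
        · intro p hp
          simp only [H5.shadow, mem_biUnion, mem_image] at hp
          obtain ⟨e, he, x, hx, rfl⟩ := hp
          exact mem_image.2 ⟨⟨e, x⟩, mem_sigma.2 ⟨he, hx⟩, rfl⟩
        · rintro ⟨e, x⟩ hi
          rw [mem_sigma] at hi
          exact hw0 _ (hshG e hi.1 x hi.2)
      refine hs1.trans_lt ?_
      rw [Finset.sum_sigma]
      have hs2 : ∀ e ∈ H, ∑ x ∈ e, w ((e.erase x).image g) < 1 / N := by
        intro e he
        have h := (mem_filter.1 (hK (hgK e he))).2
        simp only [hPdef] at h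
        rw [Finset.sum_image (hinj e he)] at h
        refine lt_of_eq_of_lt ?_ h
        refine sum_congr rfl ?_
        intro x hx
        rw [himg e he x hx]
      calc ∑ e ∈ H, ∑ x ∈ e, w ((e.erase x).image g) < ∑ _e ∈ H, (1 / N : ℝ) :=
            sum_lt_sum_of_nonempty hHne hs2
        _ = 1 := by
            rw [sum_const, nsmul_eq_mul, ← hNdef]
            field_simp
    -- (2)
    have h2 : ((G.filter (fun e => ¬ P e)).card : ℝ) ≤
        N * ∑ f ∈ H5.shadow G, (dg (G.filter (fun e => ¬ P e)) f : ℝ) * w f := by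
      have hd := deg V r (G.filter (fun e => ¬ P e)) G (fun f _ => w f) hG hBad
      have hd' : ∑ f ∈ H5.shadow G, ∑ _c ∈ lk (G.filter (fun e => ¬ P e)) f, w f =
          ∑ f ∈ H5.shadow G, (dg (G.filter (fun e => ¬ P e)) f : ℝ) * w f := by
        refine sum_congr rfl ?_
        intro f _
        rw [sum_const, nsmul_eq_mul]
        rfl
      rw [← hd', hd]
      have hb : ∀ e ∈ G.filter (fun e => ¬ P e), (1 : ℝ) / N ≤ ∑ c ∈ e, w (e.erase c) := by
        intro e he
        have := (mem_filter.1 he).2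
        simp only [hPdef, not_lt] at this
        exact this
      have := Finset.card_nsmul_le_sum _ _ _ hb
      rw [nsmul_eq_mul] at this
      have hN0 : (0 : ℝ) < N := by linarith
      calc ((G.filter (fun e => ¬ P e)).card : ℝ)
          = N * (((G.filter (fun e => ¬ P e)).card : ℝ) * (1 / N)) := by field_simp
        _ ≤ _ := mul_le_mul_of_nonneg_left this hN0.le
    -- sum
    have h3 : ((G.filter P).card : ℝ) ≤
        ∑ f ∈ H5.shadow G, ((min (N - 1) (dg (G.filter P) f) : ℕ) : ℝ) := by
      have : (G.filter P).card ≤ ∑ f ∈ H5.shadow G, min (N - 1) (dg (G.filter P) f) :=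
        h1.trans (sum_le_sum_of_subset_of_nonneg (shadow_mono hGood) (fun _ _ _ => Nat.zero_le _))
      exact_mod_cast this
    have h4 : (G.card : ℝ) = (G.filter P).card + (G.filter (fun e => ¬ P e)).card := by
      exact_mod_cast (Finset.card_filter_add_card_filter_not (s := G) P).symm
    have h5 : (G.card : ℝ) ≤ ∑ f ∈ H5.shadow G,
        ((N : ℝ) * ((dg (G.filter (fun e => ¬ P e)) f : ℝ) * w f) +
          ((min (N - 1) (dg (G.filter P) f) : ℕ) : ℝ)) := by
      rw [sum_add_distrib, ← mul_sum, h4]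
      linarith
    have h6 : (G.card : ℝ) ≤ ∑ _f ∈ H5.shadow G, ((2 * N - 1 : ℕ) : ℝ) := by
      refine h5.trans (sum_le_sum ?_)
      intro f hf
      exact bracket hN (hA' f hf) (dg_add P f)
    rw [sum_const, nsmul_eq_mul] at h6
    have h7 : G.card ≤ (H5.shadow G).card * (2 * N - 1) := by exact_mod_cast h6
    rw [mul_comm] at h7
    exact h7

end MP_182bbb_co.AR
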